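import Pool.Agent.W2helper90.FC.Many
import Pool.Agent.W2helper90.FC.Four

/-!
# Hypergraph Ramsey numbers for colourings with few colour changes

`changes c N A` (file `Pool/Agent/W2helper90/FC/Place.lean`) is the number of vertices `z` such that
`z` and `z + 1` both lie in `{0, …, N - 1} \ A` and `c (A ∪ {z}) ≠ c (A ∪ {z + 1})`: the number of
colour changes when the last vertex of an `r`-set runs through the vertex set, the other `r - 1`
vertices `A` being fixed. There is no assumption on the way in which the places of the changes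
depend on `A`.

* Two colours, triples: at most `k` changes for every pair force a homogeneous `n`-set as soon as
  `N ≥ 2 ^ (O (n ^ 4 + n ^ 2 * log k))` (off-diagonal form, explicit).
* Three colours, triples: the same with `d = (12 (n - 2)) ^ (3 ⌈log₂ n⌉)`.
* Two colours, uniformity `r = i + 3`: a tower of height `r - 2` in `O (n ^ 4 + n ^ 2 * log k)`.
* So a two-colouring on `tow (r - 1) (ε n)` vertices without a homogeneous `n`-set has an
  `(r - 1)`-set with more than `2 ^ 2 ^ (ε' n)` changes, for every `ε' < ε`, `n` large.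
* Four colours, triples: at most `4 * log₂ N` changes do not suffice: `N` can be double exponential.
-/

set_option autoImplicit false

namespace Pool.Agent.W2helper90.Unused.FewChanges

open Finset Pool.Agent.TH138.NF Pool.Agent.W2helper90.FC

theorem result :
    -- (1) two colours, triples, off-diagonal
    (∀ s t k N d : ℕ, (s - 2) * (t - 2) < d → (2 * (4 ^ d * d * k + 1)) ^ d ≤ N →
      ∀ c : Finset ℕ → Bool, (∀ A ⊆ range N, A.card = 2 → changes c N A ≤ k) →
        (∃ S ⊆ range N, S.card = s ∧ ∀ T ⊆ S, T.card = 3 → c T = false) ∨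
          (∃ S ⊆ range N, S.card = t ∧ ∀ T ⊆ S, T.card = 3 → c T = true)) ∧
    -- (2) three colours, triples
    (∀ n k N d : ℕ, 3 ≤ n → (12 * (n - 2)) ^ (3 * Nat.clog 2 n) ≤ d →
      (2 * (4 ^ d * d * k + 1)) ^ d ≤ N →
      ∀ c : Finset ℕ → Fin 3, (∀ A ⊆ range N, A.card = 2 → changes c N A ≤ k) →
        ∃ S ⊆ range N, S.card = n ∧ Homogeneous 3 c S) ∧
    -- (3) two colours, uniformity `i + 3`
    (∀ i : ℕ, ∃ C : ℝ, ∀ n k N : ℕ, 2 ≤ n →
      tow (i + 1) (C * ((n : ℝ) ^ 4 + (n : ℝ) ^ 2 * Real.logb 2 ((k : ℝ) + 2))) ≤ N →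
      ∀ c : Finset ℕ → Bool, (∀ A ⊆ range N, A.card = i + 2 → changes c N A ≤ k) →
        ∃ S ⊆ range N, S.card = n ∧ Homogeneous (i + 3) c S) ∧
    -- (4) colourings of full tower height have very many changes
    (∀ (i : ℕ) (ε' ε : ℝ), 0 < ε' → ε' < ε → ∃ n₀ : ℕ, ∀ n N : ℕ, n₀ ≤ n →
      tow (i + 2) (ε * n) ≤ N → ∀ c : Finset ℕ → Bool,
      (∀ S ⊆ range N, S.card = n → ¬ Homogeneous (i + 3) c S) →
        ∃ A ⊆ range N, A.card = i + 2 ∧ (2 : ℝ) ^ ((2 : ℝ) ^ (ε' * n)) < changes c N A) ∧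
    -- (5) four colours, triples: a double exponential example with at most `4 * log₂ N` changes
    (∀ j : ℕ, ∃ c : Finset ℕ → Bool × Bool,
      (∀ A ⊆ range (2 ^ 2 ^ j), A.card = 2 → changes c (2 ^ 2 ^ j) A ≤ 4 * 2 ^ j) ∧
      ∀ S ⊆ range (2 ^ 2 ^ j), S.card = 4 * j + 5 → ¬ Homogeneous 3 c S) := by
  refine ⟨fun s t k N d hd hN c hc => two_bool s t k N d hd hN c hc, ?_, two_poly, many,
    four_colours⟩
  intro n k N d hn hd hN c hc
  obtain ⟨S, hS, hcard, i, hi⟩ := three_colours n k N d hn hd hN c hc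
  exact ⟨S, hS, hcard, fun A hA B hB hAc hBc => by rw [hi A hA hAc, hi B hB hBc]⟩

end Pool.Agent.W2helper90.Unused.FewChanges
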