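import Pool.Agent.W2helper90.OA.Asy
import Pool.Agent.W2helper90.OA.Tower

/-!
# Hypergraph Ramsey numbers: the number of colour changes in one variable

`gapChanges c N p A` (file `Pool/Agent/W2helper90/OA/Gap.lean`) is the number of colour changes of
`A ∪ {z}` when `z` runs through the vertices of `{0, …, N - 1} \ A` which are larger than exactly `p`
elements of `A`; `changes c N A` (file `Pool/Agent/W2helper90/FC/Place.lean`) is the number of
changes for all `p` together. `tow k x` is `2 ^ (2 ^ (… ^ x))` with `k` twos, `r = i + 2` (in the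
third part `r = s + 3`) is the uniformity, the colours are the elements of any finite type `κ`.

* If for one `p` there are at most `k` changes for all `(r - 1)`-sets, then
  `N ≥ tow (r - 1) (C log n log (k + 2)) = tow (r - 2) (n ^ (C log (k + 2)))` forces a homogeneous
  `n`-set. (All colourings: `tow (r - 1) (C n)`.)
* So a colouring on `tow (r - 1) (ε n)` vertices without homogeneous `n`-set has, for every one of
  the `r` positions `p`, an `(r - 1)`-set with more than `2 ^ (δ n)` changes.
* For four colours this is sharp for every `r ≥ 3`, up to the value of `δ`: there are colourings on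
  `tow (r - 1) j` vertices without homogeneous set of size `O (j)` having at most `O (2 ^ j)` changes
  for every `(r - 1)`-set, all positions together.
-/

set_option autoImplicit false

namespace Pool.Agent.W2helper90.Unused.OneVariable

open Finset Pool.Agent.TH138.NF Pool.Agent.W2helper90.FC Pool.Agent.W2helper90.OA

theorem result :
    -- (1) few changes in one variable
    (∀ (κ : Type) [Fintype κ] (i : ℕ), ∃ C : ℝ, ∀ n k N p : ℕ, 1 ≤ n → p ≤ i + 1 →
      tow (i + 1) (C * Real.logb 2 ((n : ℝ) + 1) * Real.logb 2 ((k : ℝ) + 2)) ≤ N →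
      ∀ c : Finset ℕ → κ, (∀ A ⊆ range N, A.card = i + 1 → gapChanges c N p A ≤ k) →
        ∃ S ⊆ range N, S.card = n ∧ Homogeneous (i + 2) c S) ∧
    -- (2) full height needs exponentially many changes in every variable
    (∀ (κ : Type) [Fintype κ] (i : ℕ) (ε : ℝ), 0 < ε → ∃ δ : ℝ, 0 < δ ∧ ∃ n₀ : ℕ,
      ∀ n N p : ℕ, n₀ ≤ n → p ≤ i + 1 → tow (i + 1) (ε * n) ≤ N →
      ∀ c : Finset ℕ → κ, (∀ S ⊆ range N, S.card = n → ¬ Homogeneous (i + 2) c S) →
        ∃ A ⊆ range N, A.card = i + 1 ∧ (2 : ℝ) ^ (δ * n) < gapChanges c N p A) ∧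
    -- (3) four colours: exponentially many changes are enough, in every uniformity `s + 3`
    (∀ s : ℕ, ∃ C : ℕ, ∀ j : ℕ, ∃ N : ℕ, (N : ℝ) = tow (s + 2) j ∧
      ∃ c : Finset ℕ → Bool × Bool,
        (∀ A ⊆ range N, A.card = s + 2 → changes c N A ≤ C * 2 ^ j) ∧
        ∀ S ⊆ range N, S.card = 2 ^ s * (4 * j + s + 5) → ¬ Homogeneous (s + 3) c S) :=
  ⟨fun κ _ i => few κ i, fun κ _ i ε hε => full κ i ε hε,
    fun s => ⟨(s + 3) * Cs s, fun j => high_few s j⟩⟩

end Pool.Agent.W2helper90.Unused.OneVariable
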